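import Pool.Agent.N561.AX.MainX
import Pool.Agent.N561.AX.Krx
import Pool.Agent.N561.V.FinE
import Pool.Agent.N457.AX.Cont
import Pool.Agent.N861.AX.Kxs
import Pool.Agent.N644.AX.Kxb
import Pool.Agent.N499.AX.OutX
import Pool.Agent.N499.AX.SmX
import Pool.Agent.N130.AX.Kidsx
import Pool.Agent.N46.AX.Mirkx
import Pool.Agent.N614.AX.Hub
import Pool.Agent.N282.AX.Edge
import Pool.Agent.N803.AXG.Mirgx
import Pool.Agent.TH921.J1739
import Pool.Agent.TH416.J1740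

/-!
# Small vertices with expansions: the parts together
-/

set_option autoImplicit false

namespace Pool.Agent.N566.RX

open Pool.Agent.N561 Pool.Agent.N561.AX Pool.Agent.TH563.V
open Pool.Agent.TH563.Z (Adm SDZ et)

theorem x_kxb : S_KXB := Pool.Agent.N644.AX.kxb f_sgp f_sf f_near

theorem x_kxs : S_KXS := Pool.Agent.N861.AX.kxs Pool.Agent.N457.AX.cont f_near f_sgp x_kxb

theorem x_smallx : S_SMALLX :=
  Pool.Agent.N499.AX.smallx f_edk f_rb Pool.Agent.N878.F.out Pool.Agent.N878.F.outb f_sf f_sgp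
    x_kxs Pool.Agent.N499.AX.outx

theorem x_kidsx : S_KIDSX :=
  Pool.Agent.N130.AX.kidsx f_vf f_vt Pool.Agent.TH921.J1739.vfx Pool.Agent.TH416.J1740.vtx f_rb

theorem x_krx : S_KRX := krx x_smallx x_kidsx

theorem x_gps : S_GPS := Pool.Agent.N282.AX.gps f_edge f_sgp f_sf

theorem x_mirgx : S_MIRGX := Pool.Agent.N803.AXG.mirgx f_sgp x_gps

/-- weight `a ≤ 0` -/
theorem tokx_neg {Rt : ℕ → ℤ → Prop} {n : ℕ} {a : ℤ} (hn : 1 ≤ n) (ha : a ≤ 0)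
    (hna : 4 ≤ (n : ℤ) - a) : TOKX Rt n a := by
  obtain ⟨z, x₁, x₂, y₁, hP⟩ := f_path n a hn ha hna
  exact tokx_of_kprx (x_gps z hP.zG hP.zre) (x_krx n a z x₁ x₂ y₁ hn hP)

/-- the hub with three neighbours -/
theorem tokx_hub {Rt : ℕ → ℤ → Prop} : TOKX Rt 3 0 := by
  obtain ⟨S, r, c, C, dl, h1, h2, h3⟩ := Pool.Agent.N614.AX.krx_hub (k := 3) le_rfl
  exact tokx_of_kprx (Pool.Agent.N282.AX.geoh _ _ _ _ _ _ h1 h2) h3

/-- weight `a > 0` -/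
theorem tokx_pos {Rt : ℕ → ℤ → Prop} {n : ℕ} {a : ℤ} (hn : 1 ≤ n) (ha : 0 < a)
    (hna : 5 ≤ (n : ℤ) + a) : TOKX Rt n a := by
  obtain ⟨z, x₁, x₂, y₁, hP⟩ := f_path n (-a) hn (by omega) (by omega)
  refine tokx_of_kprx (x_mirgx z hP.zG hP.zre
    (Pool.Agent.N868.VS.mirz f_sf n (-a) z hn (by omega) (by omega) hP.zG hP.zre hP.crit)) ?_
  have h1 := Pool.Agent.N46.AX.mirkx n (-a) z sg (x_krx n (-a) z x₁ x₂ y₁ hn hP)
  rw [neg_neg] at h1
  exact h1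

end Pool.Agent.N566.RX
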