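import Pool.Agent.N566.RX.CvM
import Pool.Agent.Y482.DX.CvE
import Pool.Agent.Y482.DX.CvY

/-!
# Rings of trees with small vertices: all parts together

As `Pool.Agent.Y482.DX.CvP`, `CvE`, `CvY`; general kinds of the vertices of the trees.
-/

set_option autoImplicit false

namespace Pool.Agent.N566.RX

open Pool.Agent.Y472 Pool.Agent.Y421.CG
open Pool.Agent.Y481.DX (XFAXFc)
open Pool.Agent.Y482.DX
open Pool.Agent.TH563.UV (Tb)

/-- all links together: `K` bounds the large vertices from below, `Ty` are the types of the small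
vertices -/
theorem allxV {Ty : ℕ → ℤ → Prop} (hTy : S_TRUXV Ty) : ∃ K : ℝ, 0 < K ∧
    (∀ D : ℕ, ∃ M : ℝ, ∀ (ts : List (Tb × Tb)) (m : ℕ), ts ≠ [] → ¬ (ts.length = 1 ∧ m = 0) →
      OkRV Ty K D M ts → CxC ts m) ∧
    ∀ D k : ℕ, 1 ≤ k → ∃ M : ℝ, ∀ (ts : List (Tb × Tb)) (m : ℤ), ts.length = k →
      OkRV Ty K D M ts → CxA ts m := by
  obtain ⟨kf, cen, S, s, ρ, τ, g, e, K, hT⟩ := trcv_ex hTy
  obtain ⟨ρ₀, c', C, s3, dl3, hS⟩ := Pool.Agent.Y641.CB.sd3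
  have hXF : XFAXFc ρ₀ s3 := Pool.Agent.Y833.DX.xfaqf Pool.Agent.Y470.DX.potaf
    Pool.Agent.Y809.DX.gpaf Pool.Agent.Y470.DX.frdf ρ₀ c' C s3 dl3 hS
    (Pool.Agent.Y472.J.kxd ρ₀ c' C s3 dl3 hS)
  refine ⟨K, hT.pos, fun D => cxAbsV ?_ ?_ ?_, fun D k hk => ?_⟩
  · exact fun k m hk hkm => cxZV hT Pool.Agent.Y785.DX.mxzf xlzxfc
      Pool.Agent.Y710.CG.s0p Pool.Agent.Y274.DX.exdx Pool.Agent.Y407.DR.t_scl D k m hk hkm
  · exact fun k hk => cxMV hT t_MXF xlxfc t_FARF t_NRF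
      Pool.Agent.Y274.DX.exdx Pool.Agent.Y407.DR.t_scl D k hk
  · exact cxNV hT Pool.Agent.Y785.DX.mxnf hS hXF
      Pool.Agent.Y274.DX.exdx Pool.Agent.Y407.DR.t_scl D
  · exact cxAxV hT t_MXAF xlxfc t_FARF t_NRF
      Pool.Agent.Y100.DX.t_axpd Pool.Agent.Y100.DX.t_sca D k hk

/-- closed rings and rings with their axes, with framings and mirror images -/
theorem allfV {Ty : ℕ → ℤ → Prop} (hTy : S_TRUXV Ty) : ∃ K : ℝ, 0 < K ∧
    (∀ D : ℕ, ∃ M : ℝ, ∀ (ts : List (Tb × Tb)) (m : ℕ), ts ≠ [] → ¬ (ts.length = 1 ∧ m = 0) →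
      OkRV Ty K D M ts → CxF ts m) ∧
    ∀ D k : ℕ, 1 ≤ k → ∃ M : ℝ, ∀ (ts : List (Tb × Tb)) (m : ℤ), ts.length = k →
      OkRV Ty K D M ts → CxFA ts m ∧ CxFX ts m := by
  obtain ⟨K, hK, h1, h2⟩ := allxV hTy
  refine ⟨K, hK, fun D => ?_, fun D k hk => ?_⟩
  · obtain ⟨M, hM⟩ := h1 D
    exact ⟨M, fun ts m hts hkm h => cxf_of Pool.Agent.Y274.DX.mirdx hts h.nc (hM ts m hts hkm h)⟩
  · obtain ⟨M, hM⟩ := h2 D k hk
    refine ⟨M, fun ts m hl h => ?_⟩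
    have h0 : ts ≠ [] := by
      rintro rfl
      simp at hl
      omega
    exact ⟨cxfa_of h0 (hM ts m hl h), cxfx_of h0 (hM ts m hl h)⟩

end Pool.Agent.N566.RX
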