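import Pool.Agent.N566.RX.CvS
import Pool.Agent.Y482.DX.CvG

/-!
# Rings of trees with small vertices: the complex volume

As `Pool.Agent.Y482.DX.CvF`, `CvG`; general kinds of the vertices of the trees.
-/

set_option autoImplicit false

namespace Pool.Agent.N566.RX

open Finset
open Complex (exp log cos sin I)
open Pool.Agent.TH563.CV (FlatTree)
open Pool.Agent.TH563.UV (Tb PB AB)
open Pool.Agent.TH563.UV.Arb (ofAB)
open Pool.Agent.W711.HT hiding XX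
open Pool.Agent.W719.AR (Fl)
open Pool.Agent.Y472 (SDZ SD3 RVal3 Rz Zr S_S0P szz dzz)
open Pool.Agent.Y481.DR (VD DAng dVol CritD RCritF)
open Pool.Agent.Y481.DX (DAngA RCrit3F RCrit0F CritV)
open Pool.Agent.Y482 (sum_succ_mod)
open Pool.Agent.Y482.Chi (Lc rlam rho)
open Pool.Agent.Y482.Cv (csum cf cg cF cG S8 E8 blk blkz)
open Pool.Agent.Y482.Cz (BG Near)
open Pool.Agent.Y482.Ph (RVal0)
open Pool.Agent.Y482.DX (CVG PC PAx AP RP DFlat dsum dVol_congr dsum_congr set_shape re_phase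
  flatX_angles dflat_exists crit3F crit0F CritDA)
open Pool.Agent.N561 (CG gg vg)
open Pool.Agent.N561.G
open Pool.Agent.N566.PS
open scoped Real

theorem cvg_coreV {n : ℕ} {c : ℤ} {P : AP} {A : ℕ → AB} {z u : ℕ → ℂ} {χ : ℂ}
    {v : ℂ} (hn : 1 ≤ n)
    (hG : IsGreatest {W : ℝ | ∃ (y : ℕ → AB) (f g F G : ℕ → Fl), P y f g F G ∧
      dVol n y f g F G = W} (2 * π * v.re))
    (hc : P A (cf z χ u) (cg n z χ u) (cF z χ u) (cG n z χ u))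
    (hu : ∀ (y : ℕ → AB) (f g F G : ℕ → Fl), P y f g F G →
      dVol n A (cf z χ u) (cg n z χ u) (cF z χ u) (cG n z χ u) ≤
        dVol n y f g F G → ∀ j < n, y j = A j ∧
        f j = cf z χ u j ∧ g j = cg n z χ u j ∧ F j = cF z χ u j ∧ G j = cG n z χ u j)
    (hs : ∀ (t : ℕ → FlatTree) (x : ℕ → RP), DFlat n c t x →
      (∀ j < n, (t j).angles = ofAB (A j)) → ∃ k : ℤ,
      dsum n (cf z χ u) (cg n z χ u) (cF z χ u) (cG n z χ u) t x =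
        2 * π * I * v + k * (π : ℂ) ^ 2) : CVG n c P v := by
  have hle := hG.2 ⟨_, _, _, _, _, hc, rfl⟩
  have hV : dVol n A (cf z χ u) (cg n z χ u) (cF z χ u) (cG n z χ u) =
      2 * π * v.re := by
    obtain ⟨y, f, g, F, G, h1, h2⟩ := hG.1
    have h3 := hu y f g F G h1 (by rw [h2]; exact hle)
    rw [← h2]
    exact (dVol_congr h3).symm
  refine ⟨hG, ⟨_, _, _, _, _, _, _, hc, hV, fun j _ => flatX_angles (ofAB (A j)),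
    dflat_exists hn c fun j => ofAB (A j)⟩, ?_⟩
  intro y f g F G t x h1 h2 h3 h4
  have h5 := hu y f g F G h1 (by rw [h2, hV])
  rw [dsum_congr fun j hj => (h5 j hj).2]
  exact hs t x h4 fun j hj => by rw [h3 j hj, (h5 j hj).1]

section
variable {kf : Bool → ℕ → ℤ → ℕ} {cen : ℕ → ℂ} {S : ℕ → ℂ → ℂ → ℂ} {s : ℂ → ℂ → ℂ} {ρ τ g : ℝ}
  {e : ℕ → ℕ → ℂ → ℂ → ℂ}

/-- the closed ring: from the equations -/
theorem cvg_closedV (hI : KInd kf cen S s ρ τ g e) (hIX : KIndX kf cen S s ρ τ g e)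
    {Θ : ℂ → ℂ} {n : ℕ} (hn : 1 ≤ n) {m : ℤ} {p : ℕ → PB}
    {sh : ℕ → Tb} {u sv : ℕ → ℂ} {χ w : ℂ}
    (hsh : ∀ j < n, (p j).shape = sh j)
    (hp : ∀ j < n, CG kf cen S s ρ τ g 0 (p j) ∧ (p j).rz ∈ Rc ρ τ ∧ ‖(p j).rz‖ ≤ 1 / 10)
    (hX : CritD n (fun j => (p j).wt) (fun j => lgv kf e 0 (p j)) m (fun j => (p j).rz) χ u)
    (hs : ∀ j < n, S8 (u j / 2) ((p j).rz / 2) ((p ((j + 1) % n)).rz / 2) (χ / 2) =
      2 * π * I * sv j +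
      I / 2 * ((p j).rz * Lg (u j) (p j).rz + (p ((j + 1) % n)).rz *
        Lg (u j) (p ((j + 1) % n)).rz + χ * Lc (u j) χ) -
      (Θ ((p j).rz / 2) - Θ ((p j).rz / 2 + χ / 2) -
        (Θ ((p ((j + 1) % n)).rz / 2) - Θ ((p ((j + 1) % n)).rz / 2 + χ / 2))) +
      π * I / 4 * E8 (u j / 2) ((p j).rz / 2) ((p ((j + 1) % n)).rz / 2) (χ / 2) -
        (π : ℂ) ^ 2 / 2)
    (hw : w = ∑ j ∈ range n, (I * (p j).wt * (p j).rz ^ 2 / (4 * π) + I * (p j).rz + sv j) +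
      (I * m * χ ^ 2 / (2 * π) + I * χ) + ∑ j ∈ range n, vg kf S s 0 (p j))
    (hG : IsGreatest {W : ℝ | ∃ (y : ℕ → AB) (f g F G : ℕ → Fl),
      (∀ j < n, (y j).shape = (p j).shape) ∧ DAng n m y f g F G ∧ dVol n y f g F G = W}
      (2 * π * w.re)) :
    CVG n (-2) (PC n m sh) (w - π * I / 4 * ∑ j ∈ range n, ((sh j).ws : ℂ)) := by
  have hi : ∀ j < n, _ := fun j hj => hI (p j) (hp j hj).1 (hp j hj).2.1 (hp j hj).2.2
  have hq : ∀ j < n, hpv kf e 0 (p j) ∧ lcv kf e 0 (p j) :=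
    fun j hj => ⟨(hi j hj).2.1, (hi j hj).2.2.1⟩
  have hpi : (π : ℂ) ≠ 0 := Complex.ofReal_ne_zero.2 Real.pi_ne_zero
  refine cvg_coreV (A := fun j => agv kf e 0 (p j)) (z := fun j => (p j).rz) (u := u) (χ := χ)
    hn ?_ ?_ ?_ ?_
  · rw [re_phase]
    rw [set_shape (Q := DAng n m) hsh] at hG
    exact hG
  · exact ⟨fun j hj => by rw [agv_shape, hsh j hj], crit_angV hn hq hX⟩
  · rintro y f g F G ⟨h1, h2⟩ h3
    exact (uniDV hn hq hX (fun j hj => by rw [h1 j hj, hsh j hj]) h2).2 h3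
  · intro t x hx ht
    obtain ⟨k, hk⟩ := dsum_genV hIX hn (z := fun j => (p j).rz) (fun _ => rfl) hp hX.bz hs hX.vert
      hx ht
    refine ⟨k, ?_⟩
    have e1 : ∑ j ∈ range n, ((p j).shape.ws : ℂ) = ∑ j ∈ range n, ((sh j).ws : ℂ) := by
      refine sum_congr rfl fun j hj => ?_
      rw [hsh j (mem_range.1 hj)]
    rw [hk, ← hX.axis, e1, hw]
    push_cast
    field_simp
    linear_combination (-(8 * π * χ) + 4 * (π : ℂ) ^ 2 * ∑ j ∈ range n, ((sh j).ws : ℂ)) *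
      Complex.I_sq

lemma critV_of {n : ℕ} {a : ℕ → ℤ} {L z u : ℕ → ℂ} (h : CritDA n a L z u) :
    CritV n a L z 0 u := ⟨h.bz, h.vert⟩

/-- the ring with its axis: from the equations -/
theorem cvg_axisV (hI : KInd kf cen S s ρ τ g e) (hIX : KIndX kf cen S s ρ τ g e)
    {Θ : ℂ → ℂ} {n : ℕ} (hn : 1 ≤ n) {p : ℕ → PB}
    {sh : ℕ → Tb} {u sv : ℕ → ℂ} {w : ℂ}
    (hsh : ∀ j < n, (p j).shape = sh j)
    (hp : ∀ j < n, CG kf cen S s ρ τ g 0 (p j) ∧ (p j).rz ∈ Rc ρ τ ∧ ‖(p j).rz‖ ≤ 1 / 10)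
    (hX : CritDA n (fun j => (p j).wt) (fun j => lgv kf e 0 (p j)) (fun j => (p j).rz) u)
    (hs : ∀ j < n, S8 (u j / 2) ((p j).rz / 2) ((p ((j + 1) % n)).rz / 2) (0 / 2) =
      2 * π * I * sv j +
      I / 2 * ((p j).rz * Lg (u j) (p j).rz + (p ((j + 1) % n)).rz *
        Lg (u j) (p ((j + 1) % n)).rz + 0 * Lc (u j) 0) -
      (Θ ((p j).rz / 2) - Θ ((p j).rz / 2 + 0 / 2) -
        (Θ ((p ((j + 1) % n)).rz / 2) - Θ ((p ((j + 1) % n)).rz / 2 + 0 / 2))) +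
      π * I / 4 * E8 (u j / 2) ((p j).rz / 2) ((p ((j + 1) % n)).rz / 2) (0 / 2) -
        (π : ℂ) ^ 2 / 2)
    (hw : w = ∑ j ∈ range n, (I * (p j).wt * (p j).rz ^ 2 / (4 * π) + I * (p j).rz + sv j) +
      ∑ j ∈ range n, vg kf S s 0 (p j))
    (hG : IsGreatest {W : ℝ | ∃ (y : ℕ → AB) (f g F G : ℕ → Fl),
      (∀ j < n, (y j).shape = (p j).shape) ∧ DAngA n y f g F G ∧ dVol n y f g F G = W}
      (2 * π * w.re)) :
    CVG n 0 (PAx n sh) (w - π * I / 4 * ∑ j ∈ range n, ((sh j).ws : ℂ)) := by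
  have hi : ∀ j < n, _ := fun j hj => hI (p j) (hp j hj).1 (hp j hj).2.1 (hp j hj).2.2
  have hq : ∀ j < n, hpv kf e 0 (p j) ∧ lcv kf e 0 (p j) :=
    fun j hj => ⟨(hi j hj).2.1, (hi j hj).2.2.1⟩
  refine cvg_coreV (A := fun j => agv kf e 0 (p j)) (z := fun j => (p j).rz) (u := u) (χ := 0)
    hn ?_ ?_ ?_ ?_
  · rw [re_phase]
    rw [set_shape (Q := DAngA n) hsh] at hG
    exact hG
  · exact ⟨fun j hj => by rw [agv_shape, hsh j hj], crit_angAV hn hq (critV_of hX)⟩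
  · rintro y f g F G ⟨h1, h2⟩ h3
    exact (uniAV hn hq (critV_of hX) (fun j hj => by rw [h1 j hj, hsh j hj]) h2).2 h3
  · intro t x hx ht
    obtain ⟨k, hk⟩ := dsum_genV hIX hn (z := fun j => (p j).rz) (fun _ => rfl) hp hX.bz hs hX.vert
      hx ht
    refine ⟨k, ?_⟩
    have e1 : ∑ j ∈ range n, ((p j).shape.ws : ℂ) = ∑ j ∈ range n, ((sh j).ws : ℂ) := by
      refine sum_congr rfl fun j hj => ?_
      rw [hsh j (mem_range.1 hj)]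
    rw [hk, e1, hw]
    push_cast
    linear_combination ((π : ℂ) ^ 2 / 2 * ∑ j ∈ range n, ((sh j).ws : ℂ)) * Complex.I_sq

/-- near `χ₀`: the critical value is the maximal volume -/
theorem geodZV (hS0 : S_S0P) (hI : KInd kf cen S s ρ τ g e) {χ₀ : ℂ} {ε₁ : ℝ}
    (hN : Near χ₀ ε₁) {ρ₀ c C : ℝ} (hS : SDZ χ₀ ρ₀ c C szz dzz)
    {n : ℕ} {m : ℤ} {p : ℕ → PB} {χ : ℂ} (hn : 1 ≤ n)
    (hp : ∀ j < n, CG kf cen S s ρ τ g 0 (p j) ∧ (p j).rz ∈ Rc ρ τ ∧ ‖(p j).rz‖ ≤ 1 / 10)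
    (hz : ∀ j < n, ‖(p j).rz‖ ≤ ε₁) (hχ' : ‖χ - χ₀‖ ≤ ε₁)
    (h : RCritF szz χ₀ ρ₀ n (fun j => (p j).wt) (fun j => gg kf S s 0 (p j)) m
      (fun j => (p j).rz) χ) :
    IsGreatest {W : ℝ | ∃ (y : ℕ → AB) (f g F G : ℕ → Fl),
        (∀ j < n, (y j).shape = (p j).shape) ∧ DAng n m y f g F G ∧ dVol n y f g F G = W}
      (2 * π * (RVal3 szz n (fun j => (p j).wt) m (fun j => (p j).rz) χ +
        ∑ j ∈ range n, vg kf S s 0 (p j)).re) ∧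
    CritD n (fun j => (p j).wt) (fun j => lgv kf e 0 (p j)) m (fun j => (p j).rz) χ
      (fun j => 2 * π * dzz (p j).rz (p ((j + 1) % n)).rz χ) := by
  obtain ⟨Λ, hΛ⟩ := Pool.Agent.Y482.Cz.ex_prim
  have hi : ∀ j < n, _ := fun j hj => hI (p j) (hp j hj).1 (hp j hj).2.1 (hp j hj).2.2
  have hg' : ∀ j < n, gg kf S s 0 (p j) = -(1 / (2 * π)) * lgv kf e 0 (p j) :=
    fun j hj => (hi j hj).1
  have hcr := Pool.Agent.Y481.DR.crit_of hS0 hS hΛ hN h hg' hz hχ'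
  have hval := Pool.Agent.Y481.DR.val_of hS0 hS hΛ hN hn h hg' hz hχ'
  have hq : ∀ j < n, hpv kf e 0 (p j) ∧ lcv kf e 0 (p j) :=
    fun j hj => ⟨(hi j hj).2.1, (hi j hj).2.2.1⟩
  refine ⟨?_, hcr⟩
  rw [← dvol_ofV hq (fun j hj => (hi j hj).2.2.2) hval]
  constructor
  · exact ⟨_, _, _, _, _, fun j hj => agv_shape kf e (p j) 0, crit_angV hn hq hcr, rfl⟩
  · rintro W ⟨y, f, g, F, G, hs', hy, rfl⟩
    exact crit_maxV Pool.Agent.W120.VC.tet hn hq hcr hs' hy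

/-- near `χ₀` -/
theorem cvZV (hS0 : S_S0P) (hI : KInd kf cen S s ρ τ g e) (hIX : KIndX kf cen S s ρ τ g e)
    {χ₀ : ℂ} (hZ : Zr χ₀) : ∃ ε : ℝ, 0 < ε ∧
    ∀ ρ₀ c C : ℝ, SDZ χ₀ ρ₀ c C szz dzz →
    ∀ (n : ℕ) (m : ℤ) (p : ℕ → PB) (sh : ℕ → Tb) (χ : ℂ), 1 ≤ n →
      (∀ j < n, CG kf cen S s ρ τ g 0 (p j) ∧ (p j).rz ∈ Rc ρ τ ∧ ‖(p j).rz‖ ≤ ε) →
      (∀ j < n, (p j).shape = sh j) → ‖χ - χ₀‖ ≤ ε →
      RCritF szz χ₀ ρ₀ n (fun j => (p j).wt) (fun j => gg kf S s 0 (p j)) m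
        (fun j => (p j).rz) χ →
      CVG n (-2) (PC n m sh) (RVal3 szz n (fun j => (p j).wt) m (fun j => (p j).rz) χ +
        ∑ j ∈ range n, vg kf S s 0 (p j) - π * I / 4 * ∑ j ∈ range n, ((sh j).ws : ℂ)) := by
  obtain ⟨ε₁, hε₁, hN⟩ := Pool.Agent.Y482.Cz.near hZ
  obtain ⟨Θ, hΘ⟩ := blkz hS0
  refine ⟨min ε₁ (1 / 10), lt_min hε₁ (by norm_num), ?_⟩
  intro ρ₀ c C hS n m p sh χ hn hp hsh hχ h
  have hz : ∀ j < n, ‖(p j).rz‖ ≤ ε₁ := fun j hj => (hp j hj).2.2.trans (min_le_left _ _)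
  have hp' : ∀ j < n, CG kf cen S s ρ τ g 0 (p j) ∧ (p j).rz ∈ Rc ρ τ ∧ ‖(p j).rz‖ ≤ 1 / 10 :=
    fun j hj => ⟨(hp j hj).1, (hp j hj).2.1, (hp j hj).2.2.trans (min_le_right _ _)⟩
  have hχ' := hχ.trans (min_le_left _ _)
  obtain ⟨hgr, hcr⟩ := geodZV hS0 hI hN hS hn hp' hz hχ' h
  obtain ⟨mc, hv, -⟩ := h
  refine cvg_closedV hI hIX hn (Θ := Θ)
    (u := fun j => 2 * π * dzz (p j).rz (p ((j + 1) % n)).rz χ)
    (sv := fun j => szz (p j).rz (p ((j + 1) % n)).rz χ) hsh hp' hcr ?_ rfl hgr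
  intro j hj
  have h1 : (j + 1) % n < n := Nat.mod_lt _ (by omega)
  exact hΘ χ₀ ε₁ hN ρ₀ c C szz dzz hS _ _ χ (hv j hj).1 (hv _ h1).1 mc (hz j hj) (hz _ h1)
    hχ' _ rfl

variable {ρ₀ c C : ℝ} {s3 dl3 : ℂ → ℂ → ℂ → ℂ}

/-- near `χ = 0`, the closed ring -/
theorem cv3V (hI : KInd kf cen S s ρ τ g e) (hIX : KIndX kf cen S s ρ τ g e)
    (hS : SD3 ρ₀ c C s3 dl3) {n : ℕ} {m : ℤ} {p : ℕ → PB} {sh : ℕ → Tb} {χ : ℂ} (hn : 1 ≤ n)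
    (hp : ∀ j < n, CG kf cen S s ρ τ g 0 (p j) ∧ (p j).rz ∈ Rc ρ τ)
    (hsh : ∀ j < n, (p j).shape = sh j) (hχ : ‖χ‖ < 1 / 10)
    (h : RCrit3F s3 ρ₀ n (fun j => (p j).wt) (fun j => gg kf S s 0 (p j)) m
      (fun j => (p j).rz) χ) :
    CVG n (-2) (PC n m sh) (RVal3 s3 n (fun j => (p j).wt) m (fun j => (p j).rz) χ +
      ∑ j ∈ range n, vg kf S s 0 (p j) - π * I / 4 * ∑ j ∈ range n, ((sh j).ws : ℂ)) := by
  obtain ⟨Θ, hΘ⟩ := blk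
  have hgr := geod3V hI hS hn hp hχ h
  have hi : ∀ j < n, _ := fun j hj => hI (p j) (hp j hj).1 (hp j hj).2 (h.2.2.2.1 j hj).2.2.1
  have hcr := crit3F hS h (fun j hj => (hi j hj).1) hχ
  obtain ⟨mc, ic, nc, hv, -⟩ := h
  refine cvg_closedV hI hIX hn (Θ := Θ)
    (u := fun j => 2 * π * dl3 (p j).rz (p ((j + 1) % n)).rz χ)
    (sv := fun j => s3 (p j).rz (p ((j + 1) % n)).rz χ) hsh
    (fun j hj => ⟨(hp j hj).1, (hp j hj).2, (hv j hj).2.2.1⟩) hcr ?_ rfl hgr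
  intro j hj
  have h1 : (j + 1) % n < n := Nat.mod_lt _ (by omega)
  exact hΘ ρ₀ c C s3 dl3 hS _ _ χ (hv j hj).1 (hv _ h1).1 mc (hv j hj).2.2.1 (hv _ h1).2.2.1 nc _
    rfl

/-- at `χ = 0`, the ring with its axis -/
theorem cvAV (hI : KInd kf cen S s ρ τ g e) (hIX : KIndX kf cen S s ρ τ g e)
    (hS : SD3 ρ₀ c C s3 dl3) {n : ℕ} {p : ℕ → PB} {sh : ℕ → Tb} (hn : 1 ≤ n)
    (hp : ∀ j < n, CG kf cen S s ρ τ g 0 (p j) ∧ (p j).rz ∈ Rc ρ τ)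
    (hsh : ∀ j < n, (p j).shape = sh j)
    (h : RCrit0F s3 ρ₀ n (fun j => (p j).wt) (fun j => gg kf S s 0 (p j)) (fun j => (p j).rz)) :
    CVG n 0 (PAx n sh) (RVal0 s3 n (fun j => (p j).wt) (fun j => (p j).rz) +
      ∑ j ∈ range n, vg kf S s 0 (p j) - π * I / 4 * ∑ j ∈ range n, ((sh j).ws : ℂ)) := by
  obtain ⟨Θ, hΘ⟩ := blk
  have hgr := geodaV hI hS hn hp h
  have hi : ∀ j < n, _ := fun j hj => hI (p j) (hp j hj).1 (hp j hj).2 (h j hj).2.2.1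
  have hcr := crit0F hS h (fun j hj => (hi j hj).1)
  have m0 : (0 : ℂ) ∈ Rc ρ₀ ρ₀ := by
    constructor
    · simpa using hS.hρ.1
    · simpa using hS.hρ.1
  refine cvg_axisV hI hIX hn (Θ := Θ)
    (u := fun j => 2 * π * dl3 (p j).rz (p ((j + 1) % n)).rz 0)
    (sv := fun j => s3 (p j).rz (p ((j + 1) % n)).rz 0) hsh
    (fun j hj => ⟨(hp j hj).1, (hp j hj).2, (h j hj).2.2.1⟩) hcr ?_ rfl hgr
  intro j hj
  have h1 : (j + 1) % n < n := Nat.mod_lt _ (by omega)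
  exact hΘ ρ₀ c C s3 dl3 hS _ _ 0 (h j hj).1 (h _ h1).1 m0 (h j hj).2.2.1 (h _ h1).2.2.1
    (by simp) _ rfl

end

end Pool.Agent.N566.RX
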