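import Pool.Agent.N566.PS.Dg
import Pool.Agent.N561.AX.PreX
import Pool.Agent.Y721.DX.Trux

/-!
# Rings of trees with small vertices, expansions: the functions of the trees

The functions of the trees of `Pool.Agent.N561.AX.PreX` (`prex`), in the form of
`Pool.Agent.Y481.DX.S_TRUX`.
-/

set_option autoImplicit false
set_option maxHeartbeats 1000000

namespace Pool.Agent.N566.RX

open Finset Filter Topology Metric
open Pool.Agent.W711.HT hiding XX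
open Pool.Agent.TH563.UV
open Pool.Agent.TH563.V
open Pool.Agent.W293.HT
open Pool.Agent.Y481.DR
open Pool.Agent.Y481.DX
open Pool.Agent.N561
open Pool.Agent.N561.AX
open scoped Real

/-- the functions of the trees with expansions: roots near `0`, large vertices and isolated small
vertices of the types `Ty` -/
def S_TRUXV (Ty : ℕ → ℤ → Prop) : Prop := ∃ (ρ τ κ c : ℝ) (s dl : ℂ → ℂ → ℂ), KD ρ τ κ c s dl ∧
  ∃ (kf : Bool → ℕ → ℤ → ℕ) (cen : ℕ → ℂ) (S : ℕ → ℂ → ℂ → ℂ) (Dn : ℕ),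
  (∀ n a, kf true n a = 0) ∧ (∀ b n a, kf b n a < Dn) ∧
  (∀ b n a, kf b n a ≠ 0 → GEOC (cen (kf b n a)) (S (kf b n a))) ∧
  ∀ g : ℝ, 0 < g → ∃ K : ℝ, 0 < K ∧ ∀ Dc : ℕ, ∃ R₀ B₀ : ℝ, 0 < R₀ ∧ R₀ ≤ τ ∧ 0 < B₀ ∧
    ∀ t : Tb, OkT2 Ty K true t → t.nc ≤ Dc → ∃ (F : ℂ → ℂ) (A : ℕ → ℂ → ℂ),
      DGX R₀ B₀ (fun N ψ => XX t N ψ * ((N : ℂ) ^ (2 * t.ne) * (-1) ^ (N * t.ne) *
        Complex.exp (-(N * F 0)))) (fun ψ => F ψ - F 0) A ∧
      ∀ ψ ∈ Rc R₀ R₀, ∃ p : PB, p.shape = t ∧ p.rz = ψ ∧ CG kf cen S s ρ τ g 0 p ∧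
        F ψ = vg kf S s 0 p ∧ HasDerivAt F (gg kf S s 0 p) ψ

/-- **TRUXV** -/
theorem truxv {Ty Rt : ℕ → ℤ → Prop} (hVF : S_VF) (hVT : S_VT) (hVFX : S_VFX) (hVTX : S_VTX)
    (hT : ∀ n a, Ty n a → 1 ≤ n → TOKX Rt n a) : S_TRUXV Ty := by
  obtain ⟨ρ₀, τ₀, κ₀, c₀, s, dl, hK, kf, cen, S, Dn, h1, h2, h3, h4⟩ :=
    prex (Rt := Rt) hVF hVT hVFX hVTX hT
  refine ⟨ρ₀, τ₀, κ₀, c₀, s, dl, hK, kf, cen, S, Dn, h1, h2, h3, fun g hg => ?_⟩
  obtain ⟨e, κ₁, c₁, C₁, K, he, heρ, heτ, -, hκ₁, hc₁, hC₁, hK0, -, hind⟩ := h4 g hg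
  refine ⟨K, hK0, fun Dc => ⟨e / 2, C₁ * Dc * (2 * e) ^ 2 + 1, by linarith, by linarith,
    by positivity, fun t hok hnc => ?_⟩⟩
  obtain ⟨F, A, hG, hA, hcr⟩ := hind t hok
  have hsub : Rc (e / 2) (e / 2) ⊆ Rc e e := fun z hz =>
    ⟨by linarith [hz.1], by linarith [hz.2]⟩
  refine ⟨F, A, ⟨?_, ?_, fun k => (hA.an k).mono hsub,
    Pool.Agent.Y721.DX.lower (by linarith) (by linarith) (by linarith) (hA.an 0) hA.nz⟩,
    fun ψ hψ => hcr ψ ⟨by linarith [hψ.1], by linarith [hψ.2]⟩⟩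
  · have h5 := Pool.Agent.Y721.DX.dg_scale
      (Pool.Agent.N566.PS.dg_of_gv he hκ₁ hc₁ hC₁ hnc hG) (R₀ := e / 2) (by linarith) t.ne
    have e1 : (fun (N : ℕ) ψ => XX t N ψ * ((N : ℂ) ^ (2 * t.ne) * (-1) ^ (N * t.ne) *
        Complex.exp (-(N * F 0)))) = fun (N : ℕ) ψ => XX t N ψ * Complex.exp (-(N * F 0)) *
        Pool.Agent.Y721.DX.fc t.ne N := by
      funext N ψ
      unfold Pool.Agent.Y721.DX.fc
      ring
    rw [e1]
    exact h5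
  · intro k
    obtain ⟨C', hC'⟩ := hA.ux k
    refine ⟨C', ?_⟩
    filter_upwards [hC'] with N hN p hp
    have h5 := hN p (hsub hp)
    have e1 : Complex.exp (-(N * (F p - F 0))) * (XX t N p * ((N : ℂ) ^ (2 * t.ne) *
        (-1) ^ (N * t.ne) * Complex.exp (-(N * F 0)))) =
        (N : ℂ) ^ (2 * t.ne) * (-1) ^ (N * t.ne) * Complex.exp (-(N * F p)) * XX t N p := by
      have e2 : Complex.exp (-(N * (F p - F 0))) * Complex.exp (-(N * F 0)) =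
          Complex.exp (-(N * F p)) := by
        rw [← Complex.exp_add]
        congr 1
        ring
      rw [← e2]
      ring
    show ‖Complex.exp (-(N * (F p - F 0))) * (XX t N p * ((N : ℂ) ^ (2 * t.ne) *
        (-1) ^ (N * t.ne) * Complex.exp (-(N * F 0)))) - _‖ ≤ _
    rw [e1]
    exact h5

end Pool.Agent.N566.RX
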