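import Pool.Agent.Y482.DX.CvF
import Pool.Agent.N530.AXG.GenW
import Pool.Agent.N561.AX.StmG
import Pool.Agent.N566.PS.Geo3

/-!
# Rings of trees with small vertices: the sum of the dilogarithms of a tree

As `Pool.Agent.Y482.DX.CvX`, `CvT`; general kinds of the vertices of the trees.
-/

set_option autoImplicit false

namespace Pool.Agent.N566.RX

open Pool.Agent.N561
open Pool.Agent.N561.G
open Pool.Agent.N561.AX
open Pool.Agent.N530.AXG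
open Pool.Agent.N566.PS
open Pool.Agent.Y482.DX (BelowX bit_sumX flat_bits)
open Pool.Agent.TH563.CV
open Pool.Agent.TH563.CU (WW bit across)
open Pool.Agent.TH563.UV
open Pool.Agent.TH563.UV.Arb
open Pool.Agent.TH563.V
open Pool.Agent.W711.HT hiding XX gd
open Pool.Agent.W719.AR (Fl)
open scoped Real

theorem cv_genXW (hS : S_SIG) (hI : S_INV) (kf : Bool → ℕ → ℤ → ℕ) (e : ℕ → ℕ → ℂ → ℂ → ℂ) :
    ∀ (p : PB) (k : ℕ), hpv kf e k p → ∀ x : FlatTree, x.angles = ofAB (agv kf e k p) → BelowX x →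
      (∀ y ∈ x.edges, y.End) → ∃ n : ℤ, x.complexVolume = RW kf e k p -
        π / 2 * (((x.edges.map across).sum : ℤ) : ℂ) * (p.rz + π) +
        (π : ℂ) ^ 2 / 2 * (((x.edges.map bit).sum : ℤ) : ℂ) + n * (π : ℂ) ^ 2
  | .vx b a z, k, _, x, hx, _, _ => by
    refine ⟨0, ?_⟩
    cases x with
    | single b' a' => simp [FlatTree.complexVolume, RW, FlatTree.edges]
    | join t' c' y => simp [FlatTree.angles, agv, ofAB] at hx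
  | .br t c, k, hp, x, hx, hB, hE => by
    cases x with
    | single b' a' => simp [FlatTree.angles, agv, ofAB] at hx
    | join t' c' y =>
      simp only [FlatTree.angles, agv, ofAB, AngleTree.join.injEq] at hx
      obtain ⟨x1, x2, x3, x4⟩ := hx
      obtain ⟨b1, b2, b3, b4⟩ := hB
      obtain ⟨n1, n2, n3⟩ := hp
      obtain ⟨k1, q1⟩ := cv_genXW hS hI kf e t k n1 t' x1 b1 (fun z hz => hE z (by
        simp only [FlatTree.edges, List.mem_append]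
        exact Or.inl hz))
      obtain ⟨k2, q2⟩ := cv_genXW hS hI kf e c (kc kf c) n2 c' x2 b2 b4.ends.2
      obtain ⟨k3, q3⟩ := gen_termW hS hI (hw_symm n3) y x3 x4 b3 (hE y (by simp [FlatTree.edges]))
        b4.ends.1
      obtain ⟨k4, q4⟩ := bit_sumX b4
      have q5 := b4.front
      rw [x2, circle_of, agv_bl] at q5
      rw [x2, weight_of, agv_wt] at q4
      have q4' := congrArg (Int.cast : ℤ → ℂ) q4
      have q5' := congrArg (Int.cast : ℤ → ℂ) q5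
      refine ⟨k1 + k2 + k3 + k4, ?_⟩
      simp only [FlatTree.complexVolume, FlatTree.edges, List.map_append, List.map_cons,
        List.map_nil, List.sum_append, List.sum_cons, List.sum_nil, add_zero, RW, PB.rz]
      rw [q1, q2, q3]
      push_cast at q4' q5' ⊢
      linear_combination (-(π / 2) * (c.rz + π)) * q5' + ((π : ℂ) ^ 2 / 2) * q4'

/-- the value of the sum over the tetrahedra of a tree of the ring, for every flattening -/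
def KIndX (kf : Bool → ℕ → ℤ → ℕ) (cen : ℕ → ℂ) (S : ℕ → ℂ → ℂ → ℂ) (s : ℂ → ℂ → ℂ) (ρ τ g : ℝ)
    (e : ℕ → ℕ → ℂ → ℂ → ℂ) : Prop :=
  ∀ p : PB, CG kf cen S s ρ τ g 0 p → p.rz ∈ Rc ρ τ → ‖p.rz‖ ≤ 1 / 10 →
    ∀ x : FlatTree, x.angles = ofAB (agv kf e 0 p) → BelowX x → (∀ y ∈ x.edges, y.End) →
      ∃ n : ℤ, x.complexVolume = Complex.I * 2 * π * vg kf S s 0 p +
        Complex.I / 2 * p.rz * lgv kf e 0 p -
        π / 2 * (((x.edges.map across).sum : ℤ) : ℂ) * (p.rz + π) +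
        (π : ℂ) ^ 2 / 2 * ((p.shape.ws - p.wt + (x.edges.map bit).sum : ℤ) : ℂ) +
        n * (π : ℂ) ^ 2

/-- TREE: the sum over the tetrahedra of a tree -/
theorem tree_valV {ρ τ κ c : ℝ} {s dl : ℂ → ℂ → ℂ} (hK : KD ρ τ κ c s dl)
    {kf : Bool → ℕ → ℤ → ℕ} {cen : ℕ → ℂ} (ht : ∀ n a, kf true n a = 0)
    {S Dl : ℕ → ℂ → ℂ → ℂ} {Q : ℕ → Prop} {g : ℝ} (hQ : ∀ b n a, kf b n a ≠ 0 → Q (kf b n a))
    (hS : ∀ k, Q k → ∀ ψ φ : ℂ, ‖ψ‖ ≤ g → ‖φ - cen k‖ ≤ g → EFW (S k) ψ φ (Dl k ψ φ))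
    (hGP : ∀ k, Q k → ∀ ψ φ : ℂ, ‖ψ‖ ≤ g → ‖φ - cen k‖ ≤ g →
      GP ψ φ (2 * π * Dl k ψ φ) (S k ψ φ) = -(π : ℂ) ^ 2 / 2) :
    KIndX kf cen S s ρ τ g (ee dl Dl) := by
  intro p hC hz hn x hx hB hE
  have hS1 : S_SIG := sig der
  have hI : S_INV := inv (ref der) hS1
  have hBa : S_BASE := base der (ref der) hS1
  have hPs : Ps cen ρ τ g 0 p.rz := ⟨fun _ => ⟨hz, hn⟩, fun h => absurd rfl h⟩
  obtain ⟨-, i2, -, -⟩ := indv hK ht hQ hS p 0 (fun h => absurd rfl h) hC hPs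
  obtain ⟨n1, e1⟩ := cv_genXW hS1 hI kf (ee dl Dl) p 0 i2 x hx hB hE
  have hM := gl_edgesW (agW kf (ee dl Dl)) kf 0 p 0 false
  have hμ : (if p.nc = 0 then 0 else (0 : ℤ)) = 0 := by split_ifs <;> rfl
  rw [hμ] at hM
  obtain ⟨n2, e2⟩ := cv_genW hS1 hI kf (ee dl Dl) p 0 i2
    (flatW (agW kf (ee dl Dl)) kf 0 false 0 p) (flatv_anglesW kf (ee dl Dl) p 0 false 0)
    (flatW_below (agW kf (ee dl Dl)) kf p 0 false 0) (fun y hy => (hM.1 y hy).1)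
  obtain ⟨n3, e3⟩ := cv_valW der hBa hS1 hI hK ht hQ hS hGP p 0 (fun h => absurd rfl h) hC hPs 0
    false
  have s1 : ((flatW (agW kf (ee dl Dl)) kf 0 false 0 p).edges.map across).sum = 0 := hM.2.1
  have s2 := flat_bits hM
  rw [s1, s2] at e2
  rw [hμ] at e3
  have e4 : (if p.nc = 0 then 0 else ((false.toNat : ℕ) : ℤ)) = 0 := by split_ifs <;> rfl
  rw [e4] at e3
  refine ⟨n1 - n2 + n3, ?_⟩
  rw [e1]
  rw [e3] at e2
  push_cast at e2 ⊢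
  linear_combination -e2

/-- everything that is needed about the kinds -/
theorem kinds_ex {ρ τ κ c : ℝ} {s dl : ℂ → ℂ → ℂ} (hK : KD ρ τ κ c s dl)
    {kf : Bool → ℕ → ℤ → ℕ} {cen : ℕ → ℂ} {S : ℕ → ℂ → ℂ → ℂ} {D : ℕ}
    (ht : ∀ n a, kf true n a = 0) (hD : ∀ b n a, kf b n a < D)
    (hSD : ∀ b n a, kf b n a ≠ 0 → GEOC (cen (kf b n a)) (S (kf b n a))) :
    ∃ g : ℝ, 0 < g ∧ ∃ e : ℕ → ℕ → ℂ → ℂ → ℂ, KInd kf cen S s ρ τ g e ∧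
      KIndX kf cen S s ρ τ g e := by
  classical
  obtain ⟨g, hg0, hg⟩ := Pool.Agent.TH858.J1745.exists_g'
    (fun k g => (∃ b n a, kf b n a = k ∧ k ≠ 0) → ∀ ψ φ : ℂ, ‖ψ‖ ≤ g →
      ‖φ - cen k‖ ≤ g → ∃ δ : ℂ, EFW (S k) ψ φ δ ∧
        GP ψ φ (2 * π * δ) (S k ψ φ) = -(π : ℂ) ^ 2 / 2)
    (fun k g g' hgg h h1 ψ φ a b => h h1 ψ φ (a.trans hgg) (b.trans hgg))
    (by
      intro k
      by_cases h : ∃ b n a, kf b n a = k ∧ k ≠ 0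
      · obtain ⟨b, n, a, rfl, h0⟩ := h
        obtain ⟨g, hg0, hg⟩ := hSD b n a h0
        exact ⟨g, hg0, fun _ => hg⟩
      · exact ⟨1, one_pos, fun h1 => absurd h1 h⟩) D
  obtain ⟨Dl, hDl⟩ : ∃ Dl : ℕ → ℂ → ℂ → ℂ, ∀ k ψ φ, (∃ δ : ℂ, EFW (S k) ψ φ δ ∧
      GP ψ φ (2 * π * δ) (S k ψ φ) = -(π : ℂ) ^ 2 / 2) →
      EFW (S k) ψ φ (Dl k ψ φ) ∧ GP ψ φ (2 * π * Dl k ψ φ) (S k ψ φ) = -(π : ℂ) ^ 2 / 2 := by
    have : ∀ k ψ φ, ∃ δ : ℂ, (∃ δ : ℂ, EFW (S k) ψ φ δ ∧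
        GP ψ φ (2 * π * δ) (S k ψ φ) = -(π : ℂ) ^ 2 / 2) → EFW (S k) ψ φ δ ∧
          GP ψ φ (2 * π * δ) (S k ψ φ) = -(π : ℂ) ^ 2 / 2 := by
      intro k ψ φ
      by_cases h : ∃ δ : ℂ, EFW (S k) ψ φ δ ∧
        GP ψ φ (2 * π * δ) (S k ψ φ) = -(π : ℂ) ^ 2 / 2
      · obtain ⟨δ, hδ⟩ := h
        exact ⟨δ, fun _ => hδ⟩
      · exact ⟨0, fun h1 => absurd h1 h⟩
    choose Dl h using this
    exact ⟨Dl, h⟩
  obtain ⟨Q, hQd⟩ : ∃ Q : ℕ → Prop, Q = fun k => ∃ b n a, kf b n a = k ∧ k ≠ 0 := ⟨_, rfl⟩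
  have hQ : ∀ b n a, kf b n a ≠ 0 → Q (kf b n a) := by
    intro b n a h
    rw [hQd]
    exact ⟨b, n, a, rfl, h⟩
  have hSG : ∀ k, Q k → ∀ ψ φ : ℂ, ‖ψ‖ ≤ g → ‖φ - cen k‖ ≤ g → EFW (S k) ψ φ (Dl k ψ φ) ∧
      GP ψ φ (2 * π * Dl k ψ φ) (S k ψ φ) = -(π : ℂ) ^ 2 / 2 := by
    intro k hk ψ φ h1 h2
    rw [hQd] at hk
    have hkD : k < D := by
      obtain ⟨b, n, a, rfl, -⟩ := hk
      exact hD b n a
    exact hDl k ψ φ (hg k hkD hk ψ φ h1 h2)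
  refine ⟨g, hg0, ee dl Dl, kind_of hK ht hQ (fun k hk ψ φ h1 h2 => (hSG k hk ψ φ h1 h2).1), ?_⟩
  exact tree_valV hK ht hQ (fun k hk ψ φ h1 h2 => (hSG k hk ψ φ h1 h2).1)
    (fun k hk ψ φ h1 h2 => (hSG k hk ψ φ h1 h2).2)

end Pool.Agent.N566.RX
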