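import Pool.Agent.N566.RX.Vol
import Pool.Agent.N566.RX.Tok
import Pool.Agent.N566.PS.Fin

/-!
# Rings of trees with small vertices: the parts together
-/

set_option autoImplicit false

namespace Pool.Agent.N566.RX

open Pool.Agent.Y481.DR
open Pool.Agent.Y482.DX (CxF CxFA CxFX)
open Pool.Agent.TH563.UV (Tb)
open Pool.Agent.N561 Pool.Agent.N561.AX
open Pool.Agent.N566.PS (TyS)

/-- The types of the small vertices, without the clasp. -/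
def TyX (n : ℕ) (a : ℤ) : Prop :=
  (a ≤ 0 ∧ 4 ≤ (n : ℤ) + |a|) ∨ (n = 3 ∧ a = 0) ∨ (0 < a ∧ 5 ≤ (n : ℤ) + a)

theorem tokx_x {Rt : ℕ → ℤ → Prop} (n : ℕ) (a : ℤ) (h : TyX n a) (hn : 1 ≤ n) : TOKX Rt n a := by
  rcases h with ⟨h1, h2⟩ | ⟨rfl, rfl⟩ | ⟨h1, h2⟩
  · rw [abs_of_nonpos h1] at h2
    exact tokx_neg hn h1 (by linarith)
  · exact tokx_hub
  · exact tokx_pos hn h1 h2

theorem truxv_x : S_TRUXV TyX :=
  truxv f_vf f_vt Pool.Agent.TH921.J1739.vfx Pool.Agent.TH416.J1740.vtx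
    (tokx_x (Rt := fun _ _ => False))

/-- **rings of trees with small vertices**: expansions and complex volume -/
theorem allf_x : ∃ K : ℝ, 0 < K ∧
    (∀ D : ℕ, ∃ M : ℝ, ∀ (ts : List (Tb × Tb)) (m : ℕ), ts ≠ [] → ¬ (ts.length = 1 ∧ m = 0) →
      OkRV TyX K D M ts → CxF ts m) ∧
    ∀ D k : ℕ, 1 ≤ k → ∃ M : ℝ, ∀ (ts : List (Tb × Tb)) (m : ℤ), ts.length = k →
      OkRV TyX K D M ts → CxFA ts m ∧ CxFX ts m := allfV truxv_x

/-- **rings of trees with small vertices**: the growth rates -/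
theorem vol_x : ∃ K : ℝ, 0 < K ∧
    (∀ D : ℕ, ∃ M : ℝ, ∀ (ts : List (Tb × Tb)) (m : ℕ), ts ≠ [] → ¬ (ts.length = 1 ∧ m = 0) →
      OkRV TyX K D M ts → GrC ts m) ∧
    ∀ D k : ℕ, 1 ≤ k → ∃ M : ℝ, ∀ (ts : List (Tb × Tb)) (m : ℤ), ts.length = k →
      OkRV TyX K D M ts → GrA ts m := volV truxv_x

end Pool.Agent.N566.RX
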