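import Pool.Agent.N566.RX.Fin
import Pool.Agent.N566.CX.Fin

/-!
# Rings of trees with small vertices, the clasp included
-/

set_option autoImplicit false

namespace Pool.Agent.N566.RX

open Pool.Agent.Y481.DR
open Pool.Agent.Y482.DX (CxF CxFA CxFX)
open Pool.Agent.TH563.UV (Tb)
open Pool.Agent.N561 Pool.Agent.N561.AX
open Pool.Agent.N566.PS (TyS)

theorem tokx_s (n : ℕ) (a : ℤ) (h : TyS n a) (hn : 1 ≤ n) : TOKX (fun _ _ => False) n a := by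
  rcases h with ⟨h1, h2⟩ | ⟨rfl, rfl⟩ | ⟨rfl, rfl⟩ | ⟨h1, h2⟩
  · rw [abs_of_nonpos h1] at h2
    exact tokx_neg hn h1 (by linarith)
  · exact tokx_hub
  · exact Pool.Agent.N566.CX.x_tokx (fun h => h)
  · exact tokx_pos hn h1 h2

theorem truxv_s : S_TRUXV TyS :=
  truxv f_vf f_vt Pool.Agent.TH921.J1739.vfx Pool.Agent.TH416.J1740.vtx tokx_s

/-- **rings of trees with small vertices**: expansions and complex volume -/
theorem allf_s : ∃ K : ℝ, 0 < K ∧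
    (∀ D : ℕ, ∃ M : ℝ, ∀ (ts : List (Tb × Tb)) (m : ℕ), ts ≠ [] → ¬ (ts.length = 1 ∧ m = 0) →
      OkRV TyS K D M ts → CxF ts m) ∧
    ∀ D k : ℕ, 1 ≤ k → ∃ M : ℝ, ∀ (ts : List (Tb × Tb)) (m : ℤ), ts.length = k →
      OkRV TyS K D M ts → CxFA ts m ∧ CxFX ts m := allfV truxv_s

/-- **rings of trees with small vertices**: the growth rates -/
theorem vol_s : ∃ K : ℝ, 0 < K ∧
    (∀ D : ℕ, ∃ M : ℝ, ∀ (ts : List (Tb × Tb)) (m : ℕ), ts ≠ [] → ¬ (ts.length = 1 ∧ m = 0) →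
      OkRV TyS K D M ts → GrC ts m) ∧
    ∀ D k : ℕ, 1 ≤ k → ∃ M : ℝ, ∀ (ts : List (Tb × Tb)) (m : ℤ), ts.length = k →
      OkRV TyS K D M ts → GrA ts m := volV truxv_s

end Pool.Agent.N566.RX
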