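import Pool.Agent.N566.RX.All
import Pool.Agent.Y481.DX.Vol
import Pool.Agent.Y481.DX.VolA

/-!
# Rings of trees with small vertices: the growth rate, constants independent of the ring
-/

set_option autoImplicit false

namespace Pool.Agent.N566.RX

open Finset Filter Topology
open Pool.Agent.W711.HT hiding XX
open Pool.Agent.Y481.DR
open Pool.Agent.Y481.DX (DAngA JX JA growth_exy norm_JX)
open Pool.Agent.TH563.UV (Tb AB)
open Pool.Agent.W719.AR (Fl)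
open Pool.Agent.W719.AX (EXY)
open Pool.Agent.Y482.DX (CVG PC PAx CxC CxA)
open scoped Real

/-- the growth rate of the closed ring -/
def GrC (ts : List (Tb × Tb)) (m : ℤ) : Prop :=
  ∃ V : ℝ, IsGreatest {W : ℝ | ∃ (y : ℕ → AB) (f g F G : ℕ → Fl),
      (∀ j < 2 * ts.length, (y j).shape = tj ts ((2 * ts.length - j) % (2 * ts.length))) ∧
        DAng (2 * ts.length) m y f g F G ∧ dVol (2 * ts.length) y f g F G = W} V ∧
    (∀ᶠ N : ℕ in atTop, JD ts m N (vN N) ≠ 0) ∧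
    Tendsto (fun N : ℕ => 2 * π * (Real.log ‖JD ts m N (vN N)‖ / N)) atTop (𝓝 V)

/-- the growth rate of the ring with its axis -/
def GrA (ts : List (Tb × Tb)) (m : ℤ) : Prop :=
  ∃ V : ℝ, IsGreatest {W : ℝ | ∃ (y : ℕ → AB) (f g F G : ℕ → Fl),
      (∀ j < 2 * ts.length, (y j).shape = tj ts ((2 * ts.length - j) % (2 * ts.length))) ∧
        DAngA (2 * ts.length) y f g F G ∧ dVol (2 * ts.length) y f g F G = W} V ∧
    Tendsto (fun N : ℕ => 2 * π * (Real.log ‖JX ts m N (vN N)‖ / N)) atTop (𝓝 V)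

theorem grC_of {ts : List (Tb × Tb)} {m : ℤ} (h : CxC ts m) : GrC ts m := by
  obtain ⟨v, y, hC, hy, hE⟩ := h
  refine ⟨2 * π * v.re, ?_, ?_, growth_exy hy hE⟩
  · have h1 := hC.1
    convert h1 using 2
    ext W
    constructor
    · rintro ⟨y, f, g, F, G, h1, h2, h3⟩
      exact ⟨y, f, g, F, G, ⟨h1, h2⟩, h3⟩
    · rintro ⟨y, f, g, F, G, ⟨h1, h2⟩, h3⟩
      exact ⟨y, f, g, F, G, h1, h2, h3⟩
  · exact (Pool.Agent.W460.AX.rat _ _ y hy hE).1

theorem grA_of {ts : List (Tb × Tb)} {m : ℤ} (h : CxA ts m) : GrA ts m := by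
  obtain ⟨v, y, hC, hy, hE⟩ := h
  refine ⟨2 * π * v.re, ?_, ?_⟩
  · have h1 := hC.1
    convert h1 using 2
    ext W
    constructor
    · rintro ⟨y, f, g, F, G, h1, h2, h3⟩
      exact ⟨y, f, g, F, G, ⟨h1, h2⟩, h3⟩
    · rintro ⟨y, f, g, F, G, ⟨h1, h2⟩, h3⟩
      exact ⟨y, f, g, F, G, h1, h2, h3⟩
  · refine (growth_exy hy hE).congr' ?_
    filter_upwards [eventually_gt_atTop 0] with N hN
    rw [norm_JX hN]

/-- **the growth rate**, closed rings and rings with their axes -/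
theorem volV {Ty : ℕ → ℤ → Prop} (hTy : S_TRUXV Ty) : ∃ K : ℝ, 0 < K ∧
    (∀ D : ℕ, ∃ M : ℝ, ∀ (ts : List (Tb × Tb)) (m : ℕ), ts ≠ [] → ¬ (ts.length = 1 ∧ m = 0) →
      OkRV Ty K D M ts → GrC ts m) ∧
    ∀ D k : ℕ, 1 ≤ k → ∃ M : ℝ, ∀ (ts : List (Tb × Tb)) (m : ℤ), ts.length = k →
      OkRV Ty K D M ts → GrA ts m := by
  obtain ⟨K, hK, h1, h2⟩ := allxV hTy
  refine ⟨K, hK, fun D => ?_, fun D k hk => ?_⟩
  · obtain ⟨M, hM⟩ := h1 D
    exact ⟨M, fun ts m hts hkm h => grC_of (hM ts m hts hkm h)⟩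
  · obtain ⟨M, hM⟩ := h2 D k hk
    exact ⟨M, fun ts m hl h => grA_of (hM ts m hl h)⟩

end Pool.Agent.N566.RX
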